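import Pool.Agent.helper71.CL.Spec
import Pool.Agent.helper81.CW.Lower

/-!
# Project cl, module CFIN
-/

set_option autoImplicit false

open MeasureTheory Set Filter Topology
open scoped ENNReal
open Pool.Agent.helper81.CW

noncomputable section

namespace Pool.Agent.CL

theorem CFIN_root : Tendsto (fun n : ℕ => (5 * ((n : ℝ) + 1)) ^ (1 / (n : ℝ))) atTop (𝓝 1) := by
  have h1 := tendsto_rpow_div_mul_add 1 (1 / 5) (-1) (by norm_num)
  have h2 : Tendsto (fun n : ℕ => 5 * ((n : ℝ) + 1)) atTop atTop := by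
    refine Tendsto.const_mul_atTop (by norm_num) ?_
    exact tendsto_atTop_add_const_right _ _ tendsto_natCast_atTop_atTop
  have h3 := h1.comp h2
  refine h3.congr ?_
  intro n
  simp only [Function.comp]
  congr 2
  ring

theorem CFIN (hMVB : MVB_stmt) (hTWO : TWO_stmt) (hPOW : POW_stmt) (hLIM : LIM_stmt) : CFIN_stmt := by
  obtain ⟨f, hf⟩ : ∃ f : ℕ → ℝ, f = fun n => (mvol n).toReal := ⟨_, rfl⟩
  have hc : 0 < √3 - 1 := by
    have : (1 : ℝ) < √3 := by
      rw [Real.lt_sqrt (by norm_num)]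
      norm_num
    linarith
  have hfin : ∀ n, 1 ≤ n → mvol n ≠ ∞ := fun n hn =>
    ne_top_of_le_ne_top ENNReal.one_ne_top (hMVB n hn).1
  have hof : ∀ n, 1 ≤ n → ENNReal.ofReal (f n) = mvol n := by
    intro n hn
    rw [hf]
    exact ENNReal.ofReal_toReal (hfin n hn)
  have hf1 : ∀ n, 1 ≤ n → 0 < f n ∧ f n ≤ 1 ∧ (√3 - 1) ^ n ≤ f n := by
    intro n hn
    have h1 : (√3 - 1) ^ n ≤ f n := by
      have h2 := ENNReal.toReal_mono (hfin n hn) (hMVB n hn).2
      rw [ENNReal.toReal_ofReal (pow_nonneg hc.le n)] at h2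
      rw [hf]
      exact h2
    refine ⟨lt_of_lt_of_le (pow_pos hc n) h1, ?_, h1⟩
    have h3 := ENNReal.toReal_mono ENNReal.one_ne_top (hMVB n hn).1
    rw [ENNReal.toReal_one] at h3
    rw [hf]
    exact h3
  have hfP : ∀ d m : ℕ, 1 ≤ d → 1 ≤ m → f (m * d) ≤ (8 * √(d : ℝ) * f d) ^ m := by
    intro d m hd hm
    have h1 := hPOW d m hd hm
    have h2 : (ENNReal.ofReal (8 * √(d : ℝ)) * mvol d) ^ m = ENNReal.ofReal ((8 * √(d : ℝ) * f d) ^ m) := by
      rw [← hof d hd, ← ENNReal.ofReal_mul (by positivity), ENNReal.ofReal_pow]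
      exact mul_nonneg (by positivity) (hf1 d hd).1.le
    rw [h2] at h1
    have h3 := ENNReal.toReal_mono ENNReal.ofReal_ne_top h1
    rw [ENNReal.toReal_ofReal (pow_nonneg (mul_nonneg (by positivity) (hf1 d hd).1.le) m)] at h3
    rw [hf] at h3 ⊢
    exact h3
  have hfT : ∀ d e : ℕ, 1 ≤ d → 1 ≤ e → f (d + e) ≤ 64 * √(d : ℝ) * √(e : ℝ) * (f d * f e) := by
    intro d e hd he
    have h1 := hTWO d e hd he
    have h0 : 0 ≤ f d * f e := mul_nonneg (hf1 d hd).1.le (hf1 e he).1.le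
    have h2 : ENNReal.ofReal (64 * √(d : ℝ) * √(e : ℝ)) * (mvol d * mvol e) =
        ENNReal.ofReal (64 * √(d : ℝ) * √(e : ℝ) * (f d * f e)) := by
      rw [← hof d hd, ← hof e he, ← ENNReal.ofReal_mul (hf1 d hd).1.le,
        ← ENNReal.ofReal_mul (by positivity)]
    rw [h2] at h1
    have h3 := ENNReal.toReal_mono ENNReal.ofReal_ne_top h1
    rw [ENNReal.toReal_ofReal (mul_nonneg (by positivity) h0)] at h3
    rw [hf] at h3 ⊢
    exact h3
  obtain ⟨β, hβ1, hβ2, hβ3⟩ := hLIM f (√3 - 1) hc hf1 hfP hfT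
  have hβ9 : β ≤ 0.9 := by
    refine le_of_tendsto hβ2 ?_
    filter_upwards [upper_mvol, eventually_ge_atTop 1] with n h hn
    have h1 : f n ≤ 0.9 ^ n := by
      have h2 := ENNReal.toReal_mono ENNReal.ofReal_ne_top h
      rw [ENNReal.toReal_ofReal (by positivity)] at h2
      rw [hf]
      exact h2
    have hn0 : (n : ℝ) ≠ 0 := by
      have : (1 : ℝ) ≤ n := by exact_mod_cast hn
      linarith
    calc f n ^ (1 / (n : ℝ)) ≤ (0.9 ^ n) ^ (1 / (n : ℝ)) :=
        Real.rpow_le_rpow (hf1 n hn).1.le h1 (by positivity)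
      _ = 0.9 := by
        rw [← Real.rpow_natCast, ← Real.rpow_mul (by norm_num), mul_one_div_cancel hn0, Real.rpow_one]
  refine ⟨β, hβ1, hβ9, ?_, ?_, ?_⟩
  · have hlow : Tendsto (fun n : ℕ => f n ^ (1 / (n : ℝ)) / (5 * ((n : ℝ) + 1)) ^ (1 / (n : ℝ)))
        atTop (𝓝 β) := by
      have := hβ2.div CFIN_root one_ne_zero
      rwa [div_one] at this
    refine tendsto_of_tendsto_of_tendsto_of_le_of_le' hlow hβ2 ?_ ?_
    · filter_upwards [eventually_ge_atTop 1] with n hn
      have hn' : 0 < n := hn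
      have h1 := (lower_tau hn').1
      have h2 := (lower_tau hn').2
      have h3 : tau n ≠ ∞ := ne_top_of_le_ne_top (hfin n hn) h2
      have h4 := ENNReal.toReal_mono h3 h1
      rw [ENNReal.toReal_div, ENNReal.toReal_ofReal (by positivity)] at h4
      rw [← Real.div_rpow (hf1 n hn).1.le (by positivity)]
      refine Real.rpow_le_rpow (div_nonneg (hf1 n hn).1.le (by positivity)) ?_ (by positivity)
      rw [hf]
      exact h4
    · filter_upwards [eventually_ge_atTop 1] with n hn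
      have hn' : 0 < n := hn
      have h2 := (lower_tau hn').2
      have h4 := ENNReal.toReal_mono (hfin n hn) h2
      refine Real.rpow_le_rpow ENNReal.toReal_nonneg ?_ (by positivity)
      rw [hf]
      exact h4
  · rw [hf] at hβ2
    exact hβ2
  · intro d hd
    have h1 := hβ3 d hd
    rw [← hof d hd, ← ENNReal.ofReal_mul (by positivity)]
    exact ENNReal.ofReal_le_ofReal h1

end Pool.Agent.CL
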